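import Pool.Agent.Results.MP_633d19_co.LargeDegree

set_option autoImplicit false

namespace Pool.Agent.Results.MP_7ce1ef_co.RingClassification

open Pool.Agent.Results.MP_633d19_co.SmallDegree
open Pool.Agent.Results.MP_633d19_co.SmallDegree.MGraph
open Pool.Agent.W998.KG
open Pool.Agent

variable {V E : Type}

/-- The subgraph of `G` formed by the edges in `F`. -/
def restrict (G : MGraph V E) (F : Set E) : MGraph V F where
  ends e := G.ends e.1
  loopless e := G.loopless e.1

/-- The edges in `F` form a ring graph of order `n`: there are distinct vertices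
`v 0, ..., v (n-1)`, every edge of `F` joins two cyclically consecutive ones, and any two
cyclically consecutive ones are joined by an edge of `F`. -/
def IsRing (G : MGraph V E) (F : Set E) (n : ℕ) : Prop :=
  ∃ v : ℕ → V, (∀ i < n, ∀ j < n, v i = v j → i = j) ∧
    (∀ e ∈ F, ∃ i < n, G.ends e = s(v i, v ((i + 1) % n))) ∧
    ∀ i < n, ∃ e ∈ F, G.ends e = s(v i, v ((i + 1) % n))

/-- There is a finite graph with girth `g`, maximum multiplicity `μ` and chromatic index
`Δ + ⌈μ/⌊g/2⌋⌉`, no ring subgraph of order `g` having the same chromatic index. -/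
def Exceptional (μ g : ℕ) : Prop :=
  ∃ (V E : Type) (_ : Finite V) (_ : Finite E) (G : MGraph V E) (Δ : ℕ),
    G.HasMaxDegree Δ ∧ G.HasMaxMult μ ∧ G.HasGirth g ∧
    G.HasChromaticIndex (Δ + ⌈(μ : ℚ) / ((g / 2 : ℕ) : ℚ)⌉₊) ∧
    ¬ ∃ F : Set E, IsRing G F g ∧
      (restrict G F).HasChromaticIndex (Δ + ⌈(μ : ℚ) / ((g / 2 : ℕ) : ℚ)⌉₊)

/-- In a graph all of whose edges live on `2 * p + 1` vertices every colour is used at most `p`
times. -/
lemma overfull_on [Finite E] (G : MGraph V E) {k p : ℕ} (hc : G.Colorable k) (S : Finset V)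
    (hS : S.card ≤ 2 * p + 1) (hsub : ∀ e v, v ∈ G.ends e → v ∈ S) : Nat.card E ≤ k * p := by
  classical
  have := Fintype.ofFinite E
  obtain ⟨c, hc⟩ := hc
  rw [Nat.card_eq_fintype_card]
  have h1 : ∀ a : Fin k, (Finset.univ.filter (fun e => c e = a)).card ≤ p := by
    intro a
    have h2 : ∀ e ∈ Finset.univ.filter (fun e => c e = a),
        ∀ f ∈ Finset.univ.filter (fun e => c e = a), e ≠ f →
        Disjoint (S.filter (fun v => v ∈ G.ends e)) (S.filter (fun v => v ∈ G.ends f)) := by
      intro e he f hf hef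
      rw [Finset.disjoint_left]
      intro v hv hv'
      simp only [Finset.mem_filter, Finset.mem_univ, true_and] at he hf hv hv'
      exact hc e f hef ⟨v, hv.2, hv'.2⟩ (he.trans hf.symm)
    have h3 := Finset.card_biUnion h2
    have h4 : ∀ e, (S.filter (fun v => v ∈ G.ends e)).card = 2 := by
      intro e
      obtain ⟨x, y, hxy, hes⟩ := G.exists_ends e
      have : S.filter (fun v => v ∈ G.ends e) = {x, y} := by
        ext v
        simp only [Finset.mem_filter, hes, Sym2.mem_iff, Finset.mem_insert, Finset.mem_singleton]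
        constructor
        · exact fun h => h.2
        · intro h
          exact ⟨hsub e v (by rw [hes, Sym2.mem_iff]; exact h), h⟩
      rw [this, Finset.card_pair hxy]
    have h5 : ((Finset.univ.filter (fun e => c e = a)).biUnion
      (fun e => S.filter (fun v => v ∈ G.ends e))).card ≤ S.card := by
      apply Finset.card_le_card
      intro v hv
      rw [Finset.mem_biUnion] at hv
      obtain ⟨e, _, hv⟩ := hv
      exact (Finset.mem_filter.mp hv).1
    rw [h3] at h5
    simp only [h4, Finset.sum_const, smul_eq_mul] at h5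
    omega
  have h6 := Finset.card_eq_sum_card_fiberwise (f := c) (s := Finset.univ) (t := Finset.univ)
    (fun _ _ => Finset.mem_univ _)
  rw [Finset.card_univ] at h6
  rw [h6]
  calc _ ≤ ∑ _a : Fin k, p := Finset.sum_le_sum (fun a _ => h1 a)
    _ = k * p := by simp

/-- Double counting of the inner incidences, from below. -/
lemma count_ring [Finite V] [Finite E] {G : MGraph V E} {k l : ℕ} {y : ℕ → V} {f : ℕ → E}
    {α β : Fin k} {c : E → Option (Fin k)} (hl : 3 ≤ l) (hst : G.State l y f α β c)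
    (hch : ∀ i < l, ∀ j < l, (∃ e, G.ends e = s(y i, y j)) → j = nx l i ∨ i = nx l j)
    (hA : ∀ a : Fin k, a ≠ α → a ≠ β →
      ∃ A : Finset ℕ, (∀ i ∈ A, i < l ∧ In G l y c a i) ∧ l ≤ A.card + 1) :
    (k - 2) * (l - 1) + 2 * l ≤
      2 * Nat.card {e : E // ∃ i < l, G.ends e = s(y i, y (nx l i))} := by
  classical
  have : Fintype E := Fintype.ofFinite E
  have hpv : ∀ i, i < l → ∃ p, p < l ∧ nx l p = i := by
    intro i hi
    by_cases h0 : i = 0
    · exact ⟨l - 1, by omega, by unfold nx; rw [if_pos (by omega)]; omega⟩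
    · exact ⟨i - 1, by omega, by unfold nx; rw [if_neg (by omega)]; omega⟩
  choose! pv hpv1 hpv2 using hpv
  have hnx : ∀ i, i < l → nx l i ≠ i := by
    intro i hi h
    unfold nx at h
    split_ifs at h <;> omega
  have hpvne : ∀ i, i < l → pv i ≠ i := by
    intro i hi h
    have h1 := hpv2 i hi
    rw [h] at h1
    exact hnx i hi h1
  let R : Finset E := Finset.univ.filter fun e => ∃ i < l, G.ends e = s(y i, y (nx l i))
  let S : ℕ → Finset E := fun i => R.filter fun e => y i ∈ G.ends e
  let C : ℕ → Finset (Fin k) := fun i =>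
    ((Finset.univ.erase α).erase β).filter fun a => In G l y c a i
  have finj := G.edge_inj hl hst.inj hst.ed
  have hC : ∀ i, i < l → (C i).card + 2 ≤ (S i).card := by
    intro i hi
    have h1 : (C i).card ≤ ((S i).filter fun e => c e ≠ none).card := by
      have h2 : (C i).image some ⊆ ((S i).filter fun e => c e ≠ none).image c := by
        intro o ho
        rw [Finset.mem_image] at ho
        obtain ⟨a, ha, rfl⟩ := ho
        obtain ⟨e, he, j, hj, hji, hends⟩ := (Finset.mem_filter.1 ha).2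
        rw [Finset.mem_image]
        refine ⟨e, Finset.mem_filter.2 ⟨Finset.mem_filter.2
          ⟨Finset.mem_filter.2 ⟨Finset.mem_univ _, ?_⟩, ?_⟩, ?_⟩, he⟩
        · rcases hch i hi j hj ⟨e, hends⟩ with h | h
          · exact ⟨i, hi, by rw [hends, h]⟩
          · exact ⟨j, hj, by rw [hends, ← h, Sym2.eq_swap]⟩
        · rw [hends]; simp
        · rw [he]; simp
      calc (C i).card = ((C i).image some).card :=
            (Finset.card_image_of_injective _ (Option.some_injective _)).symm
        _ ≤ _ := Finset.card_le_card h2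
        _ ≤ _ := Finset.card_image_le
    have h6 : 2 ≤ ((S i).filter fun e => ¬ (c e ≠ none)).card := by
      have h7 : ({f i, f (pv i)} : Finset E) ⊆ (S i).filter fun e => ¬ (c e ≠ none) := by
        intro e he
        rw [Finset.mem_insert, Finset.mem_singleton] at he
        rcases he with rfl | rfl
        · refine Finset.mem_filter.2 ⟨Finset.mem_filter.2
            ⟨Finset.mem_filter.2 ⟨Finset.mem_univ _, ⟨i, hi, hst.ed i hi⟩⟩, ?_⟩, ?_⟩
          · rw [hst.ed i hi]; simp
          · rw [not_not]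
            exact (hst.none_iff _).2 ⟨i, hi, rfl⟩
        · refine Finset.mem_filter.2 ⟨Finset.mem_filter.2
            ⟨Finset.mem_filter.2 ⟨Finset.mem_univ _,
              ⟨pv i, hpv1 i hi, hst.ed _ (hpv1 i hi)⟩⟩, ?_⟩, ?_⟩
          · rw [hst.ed _ (hpv1 i hi), hpv2 i hi]; simp
          · rw [not_not]
            exact (hst.none_iff _).2 ⟨pv i, hpv1 i hi, rfl⟩
      have h8 : f i ≠ f (pv i) := fun h => hpvne i hi (finj _ hi _ (hpv1 i hi) h).symm
      calc 2 = ({f i, f (pv i)} : Finset E).card := (Finset.card_pair h8).symm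
        _ ≤ _ := Finset.card_le_card h7
    have h9 := Finset.card_filter_add_card_filter_not (s := S i) (fun e => c e ≠ none)
    omega
  have hcol : ∀ a ∈ (Finset.univ.erase α).erase β,
      l - 1 ≤ ((Finset.range l).filter fun i => In G l y c a i).card := by
    intro a ha
    obtain ⟨A, hA1, hA2⟩ := hA a (Finset.ne_of_mem_erase (Finset.mem_of_mem_erase ha))
      (Finset.ne_of_mem_erase ha)
    have h1 : A ⊆ (Finset.range l).filter fun i => In G l y c a i := by
      intro i hi
      exact Finset.mem_filter.2 ⟨Finset.mem_range.2 (hA1 i hi).1, (hA1 i hi).2⟩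
    have h2 := Finset.card_le_card h1
    omega
  have hcard : ((Finset.univ.erase α).erase β : Finset (Fin k)).card = k - 2 := by
    rw [Finset.card_erase_of_mem (Finset.mem_erase.2 ⟨hst.ne.symm, Finset.mem_univ _⟩),
      Finset.card_erase_of_mem (Finset.mem_univ _), Finset.card_univ, Fintype.card_fin]
    omega
  have hsum1 : (k - 2) * (l - 1) ≤
      ∑ a ∈ (Finset.univ.erase α).erase β, ((Finset.range l).filter fun i =>
        In G l y c a i).card := by
    have h1 := Finset.sum_le_sum hcol
    rwa [Finset.sum_const, hcard, smul_eq_mul] at h1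
  have hsum2 : ∑ a ∈ (Finset.univ.erase α).erase β, ((Finset.range l).filter fun i =>
      In G l y c a i).card = ∑ i ∈ Finset.range l, (C i).card := by
    simp only [C, Finset.card_filter]
    exact Finset.sum_comm
  have hsum3 : ∑ i ∈ Finset.range l, ((C i).card + 2) ≤ ∑ i ∈ Finset.range l, (S i).card :=
    Finset.sum_le_sum fun i hi => hC i (Finset.mem_range.1 hi)
  have hsum4 : ∑ i ∈ Finset.range l, (S i).card = ∑ e ∈ R, 2 := by
    have h1 : ∑ i ∈ Finset.range l, (S i).card =
        ∑ e ∈ R, ((Finset.range l).filter fun i => y i ∈ G.ends e).card := by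
      simp only [S, Finset.card_filter]
      exact Finset.sum_comm
    rw [h1]
    apply Finset.sum_congr rfl
    intro e he
    obtain ⟨i, hi, hie⟩ := (Finset.mem_filter.1 he).2
    have h2 : (Finset.range l).filter (fun i => y i ∈ G.ends e) = {i, nx l i} := by
      ext j
      rw [Finset.mem_filter, Finset.mem_range, hie, Sym2.mem_iff, Finset.mem_insert,
        Finset.mem_singleton]
      constructor
      · rintro ⟨hj, h | h⟩
        · exact Or.inl (hst.inj _ hj _ hi h)
        · exact Or.inr (hst.inj _ hj _ (nx_lt hi) h)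
      · rintro (rfl | rfl)
        · exact ⟨hi, Or.inl rfl⟩
        · exact ⟨nx_lt hi, Or.inr rfl⟩
    rw [h2, Finset.card_pair (hnx i hi).symm]
  have hR : Nat.card {e : E // ∃ i < l, G.ends e = s(y i, y (nx l i))} = R.card := by
    rw [Nat.card_eq_fintype_card, Fintype.card_subtype]
  rw [Finset.sum_add_distrib, Finset.sum_const, Finset.card_range, smul_eq_mul, ← hsum2,
    hsum4, Finset.sum_const, smul_eq_mul] at hsum3
  rw [hR]
  omega

/-- A graph of the class which is not `Δ + T`-colourable contains a ring of order `g` which is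
not `Δ + T`-colourable. -/
theorem exists_ring {Δ T μ g : ℕ} (hreg : ClosedReg Δ T μ g) (hT : 1 ≤ T)
    (hodd : g % 2 = 1) (hμ : μ ≤ (g / 2 + 1) * T) (n : ℕ) :
    ∀ {V : Type} (E : Type) [Finite V] [Finite E] (G : MGraph V E), Nat.card E = n →
      (∀ u, G.degree u ≤ Δ) → (∀ u w, u ≠ w → G.mult u w ≤ μ) →
      (∀ l, 3 ≤ l → G.HasCycle l → g ≤ l) → ¬ G.Colorable (Δ + T) →
      ∃ F : Set E, IsRing G F g ∧ ¬ (restrict G F).Colorable (Δ + T) := by
  classical
  have hINN : PartINN := W648.KG.INN.main (W675.KG.EXI.main W29.KG.main W460.KG.ODD.main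
    W191.KG.SWP.main)
  induction n with
  | zero =>
    intro V E _ _ G hE _ _ _ hG
    exfalso
    have : IsEmpty E := by
      rcases Nat.card_eq_zero.mp hE with h | h
      · exact h
      · exact absurd ‹Finite E› h.not_finite
    exact hG ⟨fun e => (this.false e).elim, fun e => (this.false e).elim⟩
  | succ n ih =>
    intro V E _ _ G hE hdeg hmul hcyc hG
    obtain ⟨e0⟩ : Nonempty E := by
      have : 0 < Nat.card E := by omega
      exact (Nat.card_pos_iff.mp this).1
    have hcard : Nat.card {e : E // e ≠ e0} = n := by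
      have := Fintype.ofFinite E
      rw [Nat.card_eq_fintype_card] at hE ⊢
      have h1 := Fintype.card_subtype_compl (fun e : E => e = e0)
      simp only [Fintype.card_subtype_eq] at h1
      rw [hE] at h1
      simpa using h1
    have hdegd : ∀ u, (G.del e0).degree u ≤ Δ := fun u => (G.del_degree e0 u).trans (hdeg u)
    have hmuld : ∀ u w, u ≠ w → (G.del e0).mult u w ≤ μ := by
      intro u w huw
      refine le_trans ?_ (hmul u w huw)
      unfold mult
      apply Nat.card_le_card_of_injective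
        (fun x : {e : {e : E // e ≠ e0} // (G.del e0).ends e = s(u, w)} =>
          (⟨x.1.1, x.2⟩ : {e : E // G.ends e = s(u, w)}))
      intro x y hxy
      have := congrArg Subtype.val hxy
      exact Subtype.ext (Subtype.ext this)
    have hcycd : ∀ l, 3 ≤ l → (G.del e0).HasCycle l → g ≤ l := by
      intro l h1 ⟨v, h3, h4⟩
      refine hcyc l h1 ⟨v, h3, fun i hi => ?_⟩
      obtain ⟨e, he⟩ := h4 i hi
      exact ⟨e.1, he⟩
    by_cases hdel : (G.del e0).Colorable (Δ + T)
    · obtain ⟨l, y, f, α, β, c, hl, hlodd, H⟩ :=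
        W52.KG.STA.main G (k := Δ + T) (Δ := Δ) (by omega) hdeg hG e0 hdel
      have hcl : ∀ c : E → Option (Fin (Δ + T)), G.State l y f α β c → ∀ a : Fin (Δ + T),
          (∃ j < l, G.Miss c (y j) a) → ∀ i < l, ¬ Lv G l y c a i := fun c' H' =>
        (hreg hG hdeg hmul hcyc hl hlodd H').1
      have hch := (hreg hG hdeg hmul hcyc hl hlodd H).2
      have hex : ∀ c : E → Option (Fin (Δ + T)), G.State l y f α β c →
          ∀ i < l, (G.ms c α β (y i)).Nonempty := by
        intro c' H' i hi
        have := H'.card_ms hl hdeg hi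
        rw [← Finset.card_pos]
        omega
      have hlg : g ≤ l := hcyc l hl ⟨y, H.inj, fun i hi => ⟨f i, by rw [mod_eq_nx hi, H.ed i hi]⟩⟩
      have hdisj : ∀ i j, i < j → j < l → ∀ γ, γ ≠ α → γ ≠ β → G.Miss c (y i) γ →
          G.Miss c (y j) γ → False := fun i j hij hj γ h1 h2 h3 h4 =>
        State.disj hl hlodd hG hex _ c H i j hij hj rfl γ h1 h2 h3 h4
      -- the counting at a vertex
      have hTr : Tr G l (l - 1) y f f (fun i => i) α β c :=
        ⟨H, fun i hi j hj h => H.inj i (by omega) j (by omega) h, fun i _ _ => le_rfl,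
          fun i hi hi' => by omega, fun i hi hi' => by omega⟩
      have hElem : Elem G l (l - 1) y α β c :=
        ⟨fun i j hij hj a h1 h2 h3 h4 => hdisj i j hij (by omega) a h1 h2 h3 h4,
          fun j h1 h2 => by omega⟩
      have hClsd : Clsd G (l - 1) y c := by
        rintro i hi e a he hca ⟨j, hj, hja⟩
        by_contra hcon
        push Not at hcon
        refine hcl c H a ⟨j, by omega, hja⟩ i (by omega) ⟨e, he, hca, ?_⟩
        intro j' hj' hj'e
        by_contra hne
        have hne' : y i ≠ y j' := fun hh => hne (H.inj i (by omega) j' hj' hh).symm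
        exact hcon j' (by omega) ((Sym2.mem_and_mem_iff hne').1 ⟨he, hj'e⟩)
      obtain ⟨A, hA1, hA2⟩ := W592.KG.DEG.main (k := Δ + T) (Δ := Δ) (T := T) (μ := μ) rfl hT
        hdeg hmul hl hlodd (by omega) hTr hElem hClsd 0 (by omega)
      have hAcard : A.card ≤ 2 := by
        have h1 : A ⊆ {1, l - 1} := by
          intro j hj
          obtain ⟨h2, e, he⟩ := hA1 j hj
          have h3 := hch 0 (by omega) j (by omega) ⟨e, he⟩
          rw [Finset.mem_insert, Finset.mem_singleton]
          rcases h3 with h3 | h3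
          · unfold nx at h3
            split_ifs at h3 <;> omega
          · unfold nx at h3
            split_ifs at h3
            omega
        exact (Finset.card_le_card h1).trans Finset.card_le_two
      obtain ⟨q, hq⟩ : ∃ q, l = 2 * q + 1 := ⟨l / 2, by omega⟩
      have hqT : q * T + 1 ≤ μ := by
        have h1 : A.card * μ ≤ 2 * μ := Nat.mul_le_mul_right _ hAcard
        have h2 : (l - 1) * T = 2 * (q * T) := by
          rw [hq, Nat.add_sub_cancel]; ring
        omega
      have hqg : q = g / 2 := by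
        have h1 : q * T < (g / 2 + 1) * T := by omega
        have h2 := Nat.lt_of_mul_lt_mul_right h1
        omega
      have hlg' : l = g := by omega
      have hcount := count_ring hl H hch (fun a h2 h3 => hINN hl hlodd hG hcl hex H a h2 h3)
      refine ⟨{e | ∃ i < l, G.ends e = s(y i, y (nx l i))}, ⟨y, ?_, ?_, ?_⟩, ?_⟩
      · rw [← hlg']
        exact H.inj
      · rintro e ⟨i, hi, he⟩
        rw [hlg'] at hi he
        exact ⟨i, hi, by rw [mod_eq_nx hi, he]⟩
      · intro i hi
        rw [← hlg'] at hi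
        refine ⟨f i, ⟨i, hi, H.ed i hi⟩, ?_⟩
        rw [← hlg', mod_eq_nx hi, H.ed i hi]
      · intro hcol
        have h1 := overfull_on (restrict G {e | ∃ i < l, G.ends e = s(y i, y (nx l i))})
          (p := q) hcol ((Finset.range l).image y)
          (by
            have := Finset.card_image_le (s := Finset.range l) (f := y)
            rw [Finset.card_range] at this
            omega)
          (by
            rintro ⟨e, i, hi, he⟩ v hv
            have hv' : v ∈ G.ends e := hv
            rw [he, Sym2.mem_iff] at hv'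
            rw [Finset.mem_image]
            rcases hv' with rfl | rfl
            · exact ⟨i, Finset.mem_range.2 hi, rfl⟩
            · exact ⟨nx l i, Finset.mem_range.2 (nx_lt hi), rfl⟩)
        have h2 : Nat.card {e : E // ∃ i < l, G.ends e = s(y i, y (nx l i))} ≤ (Δ + T) * q := h1
        have hΔT : 2 ≤ Δ + T := by
          have h3 := α.isLt
          have h4 := β.isLt
          have h5 : α.val ≠ β.val := fun h => H.ne (Fin.ext h)
          omega
        obtain ⟨K, hK⟩ : ∃ K, Δ + T = K + 2 := ⟨Δ + T - 2, by omega⟩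
        have h3 : (Δ + T - 2) * (l - 1) = 2 * (K * q) := by
          rw [hK, hq, Nat.add_sub_cancel, Nat.add_sub_cancel]; ring
        have h4 : (Δ + T) * q = K * q + 2 * q := by rw [hK]; ring
        omega
    · obtain ⟨F, ⟨v, h1, h2, h3⟩, h4⟩ := ih {e : E // e ≠ e0} (G.del e0) hcard hdegd hmuld hcycd hdel
      refine ⟨Subtype.val '' F, ⟨v, h1, ?_, ?_⟩, ?_⟩
      · rintro _ ⟨e, he, rfl⟩
        exact h2 e he
      · intro i hi
        obtain ⟨e, he, hee⟩ := h3 i hi
        exact ⟨e.1, ⟨e, he, rfl⟩, hee⟩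
      · rintro ⟨c, hc⟩
        refine h4 ⟨fun e => c ⟨e.1.1, ⟨e.1, e.2, rfl⟩⟩, ?_⟩
        intro e f hef hv
        refine hc _ _ ?_ hv
        intro h
        have := congrArg Subtype.val h
        exact hef (Subtype.ext (Subtype.ext this))

lemma restrict_colorable [Finite E] (G : MGraph V E) (F : Set E) :
    (restrict G F).Colorable (Nat.card F) := by
  classical
  have := Fintype.ofFinite F
  have e : F ≃ Fin (Nat.card F) := Finite.equivFin F
  exact ⟨fun x => e x, fun x y hxy _ h => hxy (e.injective h)⟩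

lemma restrict_mono (G : MGraph V E) (F : Set E) {k : ℕ} (h : G.Colorable k) :
    (restrict G F).Colorable k := by
  obtain ⟨c, hc⟩ := h
  exact ⟨fun x => c x.1, fun x y hxy hv => hc _ _ (fun h => hxy (Subtype.ext h)) hv⟩

/-- A ring of order `n` has at most `n * M` edges. -/
lemma ring_card [Finite E] (G : MGraph V E) (F : Set E) {n M : ℕ} (v : ℕ → V)
    (h2 : ∀ e ∈ F, ∃ i < n, G.ends e = s(v i, v ((i + 1) % n)))
    (hM : ∀ i < n, G.mult (v i) (v ((i + 1) % n)) ≤ M) : Nat.card F ≤ n * M := by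
  classical
  have := Fintype.ofFinite E
  have h3 : F.toFinset ⊆ (Finset.range n).biUnion
      (fun i => Finset.univ.filter (fun e => G.ends e = s(v i, v ((i + 1) % n)))) := by
    intro e he
    rw [Set.mem_toFinset] at he
    obtain ⟨i, hi, hie⟩ := h2 e he
    rw [Finset.mem_biUnion]
    exact ⟨i, Finset.mem_range.2 hi, Finset.mem_filter.2 ⟨Finset.mem_univ _, hie⟩⟩
  have h4 : Nat.card F = F.toFinset.card := by
    rw [Nat.card_eq_fintype_card, Set.toFinset_card]
  rw [h4]
  refine (Finset.card_le_card h3).trans (Finset.card_biUnion_le.trans ?_)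
  have h5 : ∀ i ∈ Finset.range n,
      (Finset.univ.filter (fun e => G.ends e = s(v i, v ((i + 1) % n)))).card ≤ M := by
    intro i hi
    have h6 := hM i (Finset.mem_range.1 hi)
    unfold MGraph.mult at h6
    rwa [Nat.card_eq_fintype_card, Fintype.card_subtype] at h6
  calc _ ≤ ∑ _i ∈ Finset.range n, M := Finset.sum_le_sum h5
    _ = n * M := by simp

/-- Every edge replaced by `μ` parallel ones. -/
def blow (G : MGraph V E) (μ : ℕ) : MGraph V (E × Fin μ) where
  ends e := G.ends e.1
  loopless e := G.loopless e.1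

lemma blow_degree [Finite E] (G : MGraph V E) (μ : ℕ) (u : V) :
    (blow G μ).degree u = G.degree u * μ := by
  unfold degree
  have e : {e : E × Fin μ // u ∈ (blow G μ).ends e} ≃ {e : E // u ∈ G.ends e} × Fin μ :=
    ⟨fun x => (⟨x.1.1, x.2⟩, x.1.2), fun x => ⟨(x.1.1, x.2), x.1.2⟩, fun _ => rfl, fun _ => rfl⟩
  rw [Nat.card_congr e, Nat.card_prod, Nat.card_eq_fintype_card (α := Fin μ), Fintype.card_fin]

lemma blow_mult [Finite E] (G : MGraph V E) (μ : ℕ) (u w : V) :
    (blow G μ).mult u w = G.mult u w * μ := by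
  unfold mult
  have e : {e : E × Fin μ // (blow G μ).ends e = s(u, w)} ≃
      {e : E // G.ends e = s(u, w)} × Fin μ :=
    ⟨fun x => (⟨x.1.1, x.2⟩, x.1.2), fun x => ⟨(x.1.1, x.2), x.1.2⟩, fun _ => rfl, fun _ => rfl⟩
  rw [Nat.card_congr e, Nat.card_prod, Nat.card_eq_fintype_card (α := Fin μ), Fintype.card_fin]

lemma blow_colorable (G : MGraph V E) {k μ : ℕ} (h : G.Colorable k) :
    (blow G μ).Colorable (k * μ) := by
  obtain ⟨c, hc⟩ := h
  refine ⟨fun x => finProdFinEquiv (c x.1, x.2), ?_⟩
  rintro ⟨e, i⟩ ⟨f, j⟩ hef hv h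
  have h1 := finProdFinEquiv.injective h
  simp only [Prod.mk.injEq] at h1
  by_cases h2 : e = f
  · subst h2
    exact hef (by rw [h1.2])
  · exact hc e f h2 hv h1.1

/-- The complete graph on five vertices. -/
def K5 : MGraph (Fin 5) (Fin 5 × Fin 2) where
  ends e := s(e.1, e.1 + 1 + Fin.castLE (by norm_num) e.2)
  loopless := by decide

lemma K5_degree (u : Fin 5) : K5.degree u = 4 := by
  classical
  rw [degree_eq]
  revert u
  decide

lemma K5_mult (u w : Fin 5) (h : u ≠ w) : K5.mult u w = 1 := by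
  classical
  unfold mult
  rw [Nat.card_eq_fintype_card, Fintype.card_subtype]
  revert u w
  decide

lemma K5_colorable : K5.Colorable 5 := by
  refine ⟨fun e => e.1 + (e.1 + 1 + Fin.castLE (by norm_num) e.2), ?_⟩
  unfold K5
  decide

lemma K5_triangle : K5.HasCycle 3 := by
  refine ⟨fun i => if i = 0 then 0 else if i = 1 then 1 else 2, by decide, ?_⟩
  unfold K5
  decide

lemma adj_succ_ne {n : ℕ} (hn : 2 ≤ n) {v : ℕ → V} (h1 : ∀ i < n, ∀ j < n, v i = v j → i = j)
    {i : ℕ} (hi : i < n) : v i ≠ v ((i + 1) % n) := by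
  intro h
  have h2 := h1 i hi _ (Nat.mod_lt _ (by omega)) h
  rcases Nat.lt_or_ge (i + 1) n with h3 | h3
  · rw [Nat.mod_eq_of_lt h3] at h2
    omega
  · have h4 : i + 1 = n := by omega
    rw [h4, Nat.mod_self] at h2
    omega

/-- Girth three. -/
lemma exceptional_three {μ : ℕ} (hμ : 1 ≤ μ) : Exceptional μ 3 := by
  have hceil : ⌈(μ : ℚ) / ((3 / 2 : ℕ) : ℚ)⌉₊ = μ := by norm_num
  refine ⟨Fin 5, (Fin 5 × Fin 2) × Fin μ, inferInstance, inferInstance, blow K5 μ, 4 * μ,
    ⟨fun v => by rw [blow_degree, K5_degree], 0, by rw [blow_degree, K5_degree]⟩,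
    ⟨fun u w h => by rw [blow_mult, K5_mult u w h, one_mul], 0, 1, by decide,
      by rw [blow_mult, K5_mult _ _ (by decide), one_mul]⟩, ⟨⟨le_rfl, ?_⟩, ?_⟩, ?_, ?_⟩
  · obtain ⟨v, h1, h2⟩ := K5_triangle
    refine ⟨v, h1, fun i hi => ?_⟩
    obtain ⟨e, he⟩ := h2 i hi
    exact ⟨(e, ⟨0, hμ⟩), he⟩
  · rintro l ⟨hl, -⟩
    exact hl
  · rw [hceil]
    constructor
    · have := blow_colorable K5 (μ := μ) K5_colorable
      have h : 4 * μ + μ = 5 * μ := by ring
      show (blow K5 μ).Colorable _
      rw [h]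
      exact this
    · intro j hj
      have h1 := (blow K5 μ).overfull (p := 2) hj (by simp)
      simp only [Nat.card_eq_fintype_card, Fintype.card_prod, Fintype.card_fin] at h1
      omega
  · rintro ⟨F, ⟨v, h1, h2, -⟩, hF⟩
    rw [hceil] at hF
    have h3 := ring_card (blow K5 μ) F (n := 3) (M := μ) v h2 (fun i hi => by
      rw [blow_mult, K5_mult _ _ (adj_succ_ne (by norm_num) h1 hi), one_mul])
    have h4 := hF.2 (restrict_colorable (blow K5 μ) F)
    omega

/-- Larger girth: a long ring together with a cycle. -/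
lemma exceptional_large {μ p T : ℕ} (hp : 1 ≤ p) (h1 : (p + 1) * T < μ)
    (h2 : μ ≤ p * (T + 1)) (hμ : 2 * p + 1 ≤ μ)
    (hceil : ⌈(μ : ℚ) / (((2 * p + 1) / 2 : ℕ) : ℚ)⌉₊ = T + 1) : Exceptional μ (2 * p + 1) := by
  classical
  have hn1 : 3 ≤ 2 * (p + 1) + 1 := by omega
  have hn2 : 3 ≤ 2 * p + 1 := by omega
  have : NeZero (2 * (p + 1) + 1) := ⟨by omega⟩
  have : NeZero (2 * p + 1) := ⟨by omega⟩
  set G₁ := fat (2 * (p + 1) + 1) hn1 (fun _ => μ) with hG₁
  set G₂ := fat (2 * p + 1) hn2 (fun _ => 1) with hG₂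
  have hcyc : ∀ l, 3 ≤ l → (G₁.sum G₂).HasCycle l → 2 * p + 1 ≤ l := by
    intro l hl hc
    rcases sum_cycle _ _ (by omega) hc with hc | hc
    · have := fat_cycle hn1 _ hl hc
      omega
    · exact fat_cycle hn2 _ hl hc
  have hdeg : ∀ u, (G₁.sum G₂).degree u ≤ 2 * μ :=
    sum_degree_le _ _ (fun u => by rw [hG₁, fat_degree]; omega)
      (fun u => by rw [hG₂, fat_degree]; omega)
  refine ⟨_, _, inferInstance, inferInstance, G₁.sum G₂, 2 * μ,
    ⟨hdeg, ⟨Sum.inl 0, by rw [sum_degree_inl, hG₁, fat_degree]; ring⟩⟩, ⟨?_, ?_⟩,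
    ⟨⟨hn2, sum_cycle_inr _ _ (fat_cycle_self hn2 _ (fun _ => le_rfl))⟩,
      fun l hl => hcyc l hl.1 hl.2⟩, ?_, ?_⟩
  · exact sum_mult_le _ _ (fun u w _ => fat_mult_le hn1 _ (fun _ => le_rfl) u w)
      (fun u w _ => (fat_mult_le hn2 _ (fun _ => le_rfl) u w).trans (by omega))
  · have h10 : (0 : ZMod (2 * (p + 1) + 1)) ≠ 1 := by
      have : Fact (1 < 2 * (p + 1) + 1) := ⟨by omega⟩
      exact zero_ne_one
    refine ⟨Sum.inl 0, Sum.inl 1, fun h => h10 (Sum.inl_injective h), ?_⟩
    rw [sum_mult_inl]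
    apply le_antisymm (fat_mult_le hn1 _ (fun _ => le_rfl) _ _)
    unfold mult
    have hinj : Function.Injective (fun x : Fin μ =>
        (⟨⟨0, x⟩, by show s((0 : ZMod (2 * (p + 1) + 1)), 0 + 1) = s(0, 1); rw [zero_add]⟩ :
          {e : (i : ZMod (2 * (p + 1) + 1)) × Fin μ // G₁.ends e = s(0, 1)})) := by
      intro x y h
      simpa using h
    have := Nat.card_le_card_of_injective _ hinj
    simpa using this
  · rw [hceil]
    constructor
    · show (G₁.sum G₂).Colorable _
      apply goldberg (Δ := 2 * μ) (p := p) (k := 2 * μ + (T + 1)) (by omega) ?_ _ _ _ rfl hdeg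
      · intro l hl _ hc
        exact hcyc l hl hc
      · rw [Nat.add_sub_cancel_left]
        have : 2 * p * (T + 1) = 2 * (p * (T + 1)) := by ring
        omega
    · intro j hj
      have hj' : (G₁.sum G₂).Colorable j := hj
      rw [sum_colorable] at hj'
      have h3 := G₁.overfull (p := p + 1) hj'.1 (by simp)
      have h4 : Nat.card ((i : ZMod (2 * (p + 1) + 1)) × Fin μ) = (2 * (p + 1) + 1) * μ := by
        rw [Nat.card_eq_fintype_card, Fintype.card_sigma]
        simp
      rw [h4] at h3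
      by_contra hcon
      have h5 : j ≤ 2 * μ + T := by omega
      have h6 : j * (p + 1) ≤ (2 * μ + T) * (p + 1) := Nat.mul_le_mul_right _ h5
      nlinarith
  · rintro ⟨F, ⟨v, h3, h4, h5⟩, hF⟩
    rw [hceil] at hF
    -- all vertices lie on the short cycle
    have hall : ∀ i < 2 * p + 1, ∃ u, v i = Sum.inr u := by
      rcases h0 : v 0 with u0 | u0
      · exfalso
        have hall : ∀ i < 2 * p + 1, ∃ u, v i = Sum.inl u := by
          intro i
          induction i with
          | zero => exact fun _ => ⟨u0, h0⟩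
          | succ i ih =>
            intro hi
            obtain ⟨u, hu⟩ := ih (by omega)
            obtain ⟨e, -, he⟩ := h5 i (by omega)
            rw [Nat.mod_eq_of_lt hi] at he
            rcases hw : v (i + 1) with w | w
            · exact ⟨w, rfl⟩
            · exfalso
              exact sum_no_mixed G₁ G₂ u w e ⟨by rw [he, hu]; simp, by rw [he, hw]; simp⟩
        have hall' : ∀ i, ∃ u, i < 2 * p + 1 → v i = Sum.inl u := by
          intro i
          by_cases hi : i < 2 * p + 1
          · obtain ⟨u, hu⟩ := hall i hi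
            exact ⟨u, fun _ => hu⟩
          · exact ⟨u0, fun h => absurd h hi⟩
        choose w hw using hall'
        have hc : G₁.HasCycle (2 * p + 1) := by
          refine ⟨w, fun i hi j hj hij => h3 i hi j hj (by rw [hw i hi, hw j hj, hij]), ?_⟩
          intro i hi
          obtain ⟨e, -, he⟩ := h5 i hi
          rw [hw i hi, hw _ (Nat.mod_lt _ (by omega))] at he
          rcases e with e | e
          · exact ⟨e, (sum_ends_inl G₁ G₂ _ _ e).mp he⟩
          · exfalso
            exact mem_sum_lr G₁ G₂ (w i) e (by rw [he]; simp)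
        have := fat_cycle hn1 _ hn2 hc
        omega
      · intro i
        induction i with
        | zero => exact fun _ => ⟨u0, h0⟩
        | succ i ih =>
          intro hi
          obtain ⟨u, hu⟩ := ih (by omega)
          obtain ⟨e, -, he⟩ := h5 i (by omega)
          rw [Nat.mod_eq_of_lt hi] at he
          rcases hw : v (i + 1) with w | w
          · exfalso
            exact sum_no_mixed G₁ G₂ w u e ⟨by rw [he, hw]; simp, by rw [he, hu]; simp⟩
          · exact ⟨w, rfl⟩
    have h6 := ring_card (G₁.sum G₂) F (n := 2 * p + 1) (M := 1) v h4 (fun i hi => by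
      obtain ⟨u, hu⟩ := hall i hi
      obtain ⟨w, hw⟩ := hall _ (Nat.mod_lt (i + 1) (by omega : 0 < 2 * p + 1))
      rw [hu, hw, sum_mult_inr]
      exact fat_mult_le hn2 _ (fun _ => le_rfl) u w)
    have h7 := hF.2 (restrict_colorable (G₁.sum G₂) F)
    omega

/-- No exceptional graph. -/
lemma not_exceptional {μ g T : ℕ} (hg : 4 ≤ g) (hodd : g % 2 = 1) (hT : 1 ≤ T)
    (hreg : ∀ Δ, ClosedReg Δ T μ g) (hμ : μ ≤ (g / 2 + 1) * T)
    (hceil : ⌈(μ : ℚ) / ((g / 2 : ℕ) : ℚ)⌉₊ = T + 1) : ¬ Exceptional μ g := by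
  rintro ⟨V, E, _, _, G, Δ, ⟨h1, -⟩, ⟨h2, -⟩, h3, h4, h5⟩
  rw [hceil] at h4 h5
  have hnot : ¬ G.Colorable (Δ + T) := by
    intro h
    have := h4.2 h
    omega
  obtain ⟨F, hF, hF'⟩ := exists_ring (hreg Δ) hT hodd hμ _ E G rfl h1 h2
    (fun l hl hc => h3.2 ⟨hl, hc⟩) hnot
  refine h5 ⟨F, hF, restrict_mono G F h4.1, ?_⟩
  intro j hj
  by_contra hcon
  have hj' : (restrict G F).Colorable j := hj
  exact hF' (hj'.mono (by omega))

/-- The region needed is covered by the two known ones. -/
lemma closedReg_all {Δ T μ g p : ℕ} (hodd : g % 2 = 1) (hgp : g / 2 = p) (hp2 : 2 ≤ p)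
    (hT : 2 ≤ T) (h1 : μ ≤ p * (T + 1)) (hle : μ ≤ (p + 1) * T) : ClosedReg Δ T μ g := by
  by_cases hp4 : 4 ≤ p
  · refine closedReg_cond (by omega) (by omega) (Or.inl ?_)
    have e1 : 2 * g - 3 = 4 * p - 1 := by omega
    rw [e1]
    obtain ⟨p', rfl⟩ : ∃ p', p = p' + 4 := ⟨p - 4, by omega⟩
    obtain ⟨T', rfl⟩ : ∃ T', T = T' + 2 := ⟨T - 2, by omega⟩
    have e2 : 4 * (p' + 4) - 1 = 4 * p' + 15 := by omega
    rw [e2]
    rcases Nat.lt_or_ge T' 2 with h | h
    · rcases (by omega : T' = 0 ∨ T' = 1) with rfl | rfl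
      · omega
      · omega
    · nlinarith [Nat.zero_le (p' * T')]
  · have hTRE : PartTRE := Pool.Agent.W992.KG.TRE.main Pool.Agent.W411.KG.main
    have hr : Reg3 g μ T := Or.inr ⟨by omega, by omega, by omega, by rw [hgp]; exact hle⟩
    have hreg : ClosedReg Δ T μ g := @closedReg_three @hTRE Pool.Agent.W733.KG.CLS.main
      Pool.Agent.W592.KG.DEG.main Pool.Agent.W33.KG.EVN.main Pool.Agent.W2.KG.main
      Pool.Agent.W384.KG.MOR.main Δ T μ g hr
    intro h1 h2 h3 h4
    exact hreg h1 h2 h3 h4

/-- **Complete answer.** For odd `g ≥ 3` and `μ ≥ g` there is a graph with girth `g` and maximum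
multiplicity `μ` which attains Steffen's bound and has no ring subgraph of order `g` with the same
chromatic index if and only if `g = 3` or `(⌊g/2⌋ + 1)(⌈μ/⌊g/2⌋⌉ - 1) < μ`. -/
theorem result (μ g : ℕ) (hg : 3 ≤ g) (hodd : g % 2 = 1) (hμ : g ≤ μ) :
    Exceptional μ g ↔
      g = 3 ∨ (g / 2 + 1) * (⌈(μ : ℚ) / ((g / 2 : ℕ) : ℚ)⌉₊ - 1) < μ := by
  obtain ⟨p, hp⟩ : ∃ p, g = 2 * p + 1 := ⟨g / 2, by omega⟩
  have hgp : g / 2 = p := by omega
  have hp0 : (0 : ℚ) < ((p : ℕ) : ℚ) := by exact_mod_cast (by omega : 0 < p)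
  obtain ⟨t, ht⟩ : ∃ t, ⌈(μ : ℚ) / ((g / 2 : ℕ) : ℚ)⌉₊ = t := ⟨_, rfl⟩
  have ht1 : μ ≤ p * t := by
    have h1 : (μ : ℚ) / ((g / 2 : ℕ) : ℚ) ≤ t := by rw [← ht]; exact Nat.le_ceil _
    rw [hgp, div_le_iff₀ hp0] at h1
    have : (μ : ℚ) ≤ ((p * t : ℕ) : ℚ) := by push_cast; linarith
    exact_mod_cast this
  have ht3 : 3 ≤ t := by
    by_contra hcon
    have h1 : t ≤ 2 := by omega
    have h2 : p * t ≤ p * 2 := Nat.mul_le_mul_left _ h1
    omega
  obtain ⟨T, hT⟩ : ∃ T, t = T + 1 := ⟨t - 1, by omega⟩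
  subst hT
  have ht2 : p * T < μ := by
    have h1 : ((T : ℕ) : ℚ) < (μ : ℚ) / ((g / 2 : ℕ) : ℚ) := by
      rw [← Nat.lt_ceil, ht]
      omega
    rw [hgp, lt_div_iff₀ hp0] at h1
    have : ((p * T : ℕ) : ℚ) < (μ : ℚ) := by push_cast; linarith
    exact_mod_cast this
  rw [ht, Nat.add_sub_cancel, hgp]
  constructor
  · intro hex
    by_contra hcon
    push Not at hcon
    obtain ⟨hg3, hle⟩ := hcon
    have hp2 : 2 ≤ p := by omega
    exact not_exceptional (T := T) (by omega) hodd (by omega)
      (fun Δ => closedReg_all hodd hgp hp2 (by omega) ht1 hle) (by rw [hgp]; exact hle) ht hex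
  · rintro (h | h)
    · subst h
      exact exceptional_three (by omega)
    · rw [hp] at ht hμ ⊢
      exact exceptional_large (by omega) h ht1 hμ ht

end Pool.Agent.Results.MP_7ce1ef_co.RingClassification
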